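import Mathlib
import Pool.Agent.H50.DblPts

namespace Pool.Agent.Results.MP_676d90_ag.Least

open MvPolynomial
open scoped LinearAlgebra.Projectivization

/-- The homogeneous prime ideal of a point `P` of projective `n`-space: the ideal generated by
the homogeneous polynomials vanishing at `P`. -/
noncomputable def prime {n : ℕ} (P : ℙ ℂ (Fin (n + 1) → ℂ)) :
    Ideal (MvPolynomial (Fin (n + 1)) ℂ) :=
  Ideal.span {G | (∃ e, G.IsHomogeneous e) ∧ eval P.rep G = 0}

/-- The symbolic square: the intersection of the squares of the primes of the points of `Y`. -/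
noncomputable def symSq {n : ℕ} (Y : Finset (ℙ ℂ (Fin (n + 1) → ℂ))) :
    Ideal (MvPolynomial (Fin (n + 1)) ℂ) :=
  ⨅ P ∈ Y, prime P ^ 2

/-- The Hilbert function: the dimension of the degree `d` part of the quotient ring, i.e. of the
image of the forms of degree `d`. -/
noncomputable def hilb {n : ℕ} (Y : Finset (ℙ ℂ (Fin (n + 1) → ℂ))) (d : ℕ) : ℕ :=
  Module.finrank ℂ ((homogeneousSubmodule (Fin (n + 1)) ℂ d).map
    (Ideal.Quotient.mkₐ ℂ (symSq Y)).toLinearMap)

theorem result (n r : ℕ) (hn : 1 ≤ n) :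
    ∃ Y₀ : Finset (ℙ ℂ (Fin (n + 1) → ℂ)), Y₀.card = r ∧
      (∀ d, 1 ≤ d → hilb Y₀ d = min (d + 1) (2 * r) + (n - 1) * min d r) ∧
      ∀ Y : Finset (ℙ ℂ (Fin (n + 1) → ℂ)), Y.card = r →
        ∀ d, 1 ≤ d → hilb Y₀ d ≤ hilb Y d :=
  Pool.Agent.H50.DblPts.main n r hn

end Pool.Agent.Results.MP_676d90_ag.Least
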